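import Pool.Agent.helper28.LT.Defs
import Pool.Agent.helper65.FT.E3

set_option autoImplicit false

namespace Pool.Agent.helper28.LT

open Finset NumberField Pool.Agent.helper3.FT Pool.Agent.helper47.RA

theorem FU_dvd {n k q α β γ : ℤ} (hr : ResQ n k q α β γ) (h : IsCoprime n k)
    (hq : IsCoprime q n) (m g z : ℤ)
    (h1 : n ^ 3 ∣ q * z * k ^ 4 + q * m * g * k ^ 2 - g ^ 2 * n ^ 2)
    (h2 : k ∣ q * m ^ 2 - z * n ^ 2) :
    n ^ 3 * k ∣ z - (α * m ^ 2 + β * m * g + γ * g ^ 2) := by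
  obtain ⟨a, ha⟩ := hr.hα
  obtain ⟨b, hb⟩ := hr.hβ
  obtain ⟨c, hc⟩ := hr.hγ
  obtain ⟨a', ha'⟩ := hr.kα
  obtain ⟨b', hb'⟩ := hr.kβ
  obtain ⟨c', hc'⟩ := hr.kγ
  obtain ⟨r, hr1⟩ := h1
  obtain ⟨s, hs⟩ := h2
  have hcop : IsCoprime (n ^ 3) k := h.pow_left
  refine hcop.mul_dvd ?_ ?_
  · have h4 : IsCoprime (n ^ 3) (q * k ^ 4) := IsCoprime.mul_right hq.symm.pow_left h.pow
    refine h4.dvd_of_dvd_mul_left
      ⟨r - a * m ^ 2 * k ^ 4 * q - b * k ^ 2 * m * g * q - c * g ^ 2, ?_⟩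
    linear_combination hr1 - q * m ^ 2 * k ^ 4 * ha - q * k ^ 2 * m * g * hb - g ^ 2 * hc
  · have h4 : IsCoprime k (n ^ 2) := h.symm.pow_right
    refine h4.dvd_of_dvd_mul_left
      ⟨-s - a' * m ^ 2 - b' * n ^ 2 * m * g - c' * n ^ 2 * g ^ 2, ?_⟩
    linear_combination -hs - m ^ 2 * ha' - n ^ 2 * m * g * hb' - n ^ 2 * g ^ 2 * hc'

theorem FU_norm_e (x : ℝ) : ‖e x‖ = 1 := by
  unfold e
  rw [Complex.norm_exp]
  simp

/-- FU (from RE2, FT.fejer; adapt helper65/FT/R.lean) -/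
theorem fib_up (n k M G P V H q : ℕ) (hn : 1 ≤ n) (hk : 1 ≤ k) (hcop : Nat.Coprime n k)
    (hq : Nat.Coprime q n) (hH : 1 ≤ H) (hVH : 4 * H * V ≤ n ^ 3 * k)
    (α β γ : ℤ) (hr : ResQ n k q α β γ) (r r' c : ℤ) :
    ((fib q P M G r r' c V n k).card : ℝ) ≤
      2 / H * ((((cls M P r).card * (cls G P r').card : ℕ) : ℝ) +
        2 * ∑ h ∈ Ico 1 H, ‖ESc M G P r r' (h * α / ((n : ℝ) ^ 3 * k))
        (h * β / ((n : ℝ) ^ 3 * k)) (h * γ / ((n : ℝ) ^ 3 * k))‖) := by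
  classical
  have hc : IsCoprime (n : ℤ) k := Nat.isCoprime_iff_coprime.2 hcop
  have hqc : IsCoprime (q : ℤ) n := Nat.isCoprime_iff_coprime.2 hq
  have hnR : (0 : ℝ) < n := by exact_mod_cast hn
  have hkR : (0 : ℝ) < k := by exact_mod_cast hk
  have hqR : (0 : ℝ) < (n : ℝ) ^ 3 * k := by positivity
  have hqZ : (0 : ℤ) < (n : ℤ) ^ 3 * k := by
    have h1 : (0 : ℤ) < n := by exact_mod_cast hn
    have h2 : (0 : ℤ) < k := by exact_mod_cast hk
    positivity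
  have hbig : 4 * (H : ℝ) * V ≤ (n : ℝ) ^ 3 * k := by exact_mod_cast hVH
  set x : ℤ × ℤ → ℝ := fun p =>
    ((α * p.1 ^ 2 + β * p.1 * p.2 + γ * p.2 ^ 2) - c - V / 2) / ((n : ℝ) ^ 3 * k)
    with hx
  set s := cls M P r ×ˢ cls G P r' with hs
  have hF := fejer s x H hH
  have hcard : (s.card : ℝ) = (((cls M P r).card * (cls G P r').card : ℕ) : ℝ) := by
    rw [hs, Finset.card_product]
  have hES : ∀ h ∈ Ico 1 H, ‖∑ i ∈ s, e (h * x i)‖
      = ‖ESc M G P r r' (h * α / ((n : ℝ) ^ 3 * k)) (h * β / ((n : ℝ) ^ 3 * k))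
        (h * γ / ((n : ℝ) ^ 3 * k))‖ := by
    intro h _
    have hsum : ∑ i ∈ s, e (h * x i) = e (h * (-(c : ℝ) - V / 2) / ((n : ℝ) ^ 3 * k)) *
        ESc M G P r r' (h * α / ((n : ℝ) ^ 3 * k)) (h * β / ((n : ℝ) ^ 3 * k))
        (h * γ / ((n : ℝ) ^ 3 * k)) := by
      unfold ESc
      rw [hs, Finset.sum_product, Finset.mul_sum]
      refine Finset.sum_congr rfl (fun m _ => ?_)
      rw [Finset.mul_sum]
      refine Finset.sum_congr rfl (fun g _ => ?_)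
      rw [← E3_e_add]
      congr 1
      simp only [hx]
      field_simp
      ring
    rw [hsum, norm_mul, FU_norm_e, one_mul]
  rw [hcard, Finset.sum_congr rfl hES] at hF
  refine le_trans ?_ hF
  have hle : (fib q P M G r r' c V n k).card ≤ (s.filter (fun i => nd (x i) * (8 * H) ≤ 1)).card := by
    refine Finset.card_le_card_of_injOn (fun t => (t.1, t.2.1)) ?_ ?_
    · intro t ht
      simp only [fib, Finset.coe_filter, Finset.mem_product, Set.mem_ofPred_eq,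
        Finset.mem_Icc] at ht
      simp only [hs, Finset.coe_filter, Finset.mem_product, Set.mem_ofPred_eq]
      refine ⟨⟨ht.1.1, ht.1.2.1⟩, ?_⟩
      obtain ⟨w, hw⟩ := FU_dvd hr hc hqc _ _ _ ht.2.1 ht.2.2
      have hz1 : (c : ℝ) ≤ t.2.2 := by exact_mod_cast ht.1.2.2.1
      have hz2 : (t.2.2 : ℝ) ≤ c + V := by exact_mod_cast ht.1.2.2.2
      have hxe : x (t.1, t.2.1) = (t.2.2 - c - V / 2) / ((n : ℝ) ^ 3 * k) - w := by
        simp only [hx]
        have hwR : (t.2.2 : ℝ) - (α * t.1 ^ 2 + β * t.1 * t.2.1 + γ * t.2.1 ^ 2)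
            = (n : ℝ) ^ 3 * k * w := by exact_mod_cast hw
        field_simp
        linarith
      have hnd : nd (x (t.1, t.2.1)) ≤ (V / 2) / ((n : ℝ) ^ 3 * k) := by
        unfold nd
        refine (round_le (x (t.1, t.2.1)) (-w)).trans ?_
        rw [hxe]
        push_cast
        rw [show ((t.2.2 : ℝ) - c - V / 2) / ((n : ℝ) ^ 3 * k) - w - -(w : ℝ)
          = (t.2.2 - c - V / 2) / ((n : ℝ) ^ 3 * k) by ring,
          abs_div, abs_of_pos hqR]
        gcongr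
        rw [abs_le]
        constructor <;> linarith
      have hH0 : (0 : ℝ) < H := by exact_mod_cast hH
      calc nd (x (t.1, t.2.1)) * (8 * H) ≤ (V / 2) / ((n : ℝ) ^ 3 * k) * (8 * H) := by gcongr
        _ = 4 * H * V / ((n : ℝ) ^ 3 * k) := by ring
        _ ≤ 1 := by rw [div_le_one hqR]; exact hbig
    · intro t ht t' ht' he
      simp only [fib, Finset.coe_filter, Finset.mem_product, Set.mem_ofPred_eq,
        Finset.mem_Icc] at ht ht'
      simp only [Prod.mk.injEq] at he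
      obtain ⟨h1, h2⟩ := he
      have d1 := FU_dvd hr hc hqc _ _ _ ht.2.1 ht.2.2
      have d2 := FU_dvd hr hc hqc _ _ _ ht'.2.1 ht'.2.2
      rw [h1, h2] at d1
      have d3 := dvd_sub d1 d2
      have e3 : t.2.2 - (α * t'.1 ^ 2 + β * t'.1 * t'.2.1 + γ * t'.2.1 ^ 2)
          - (t'.2.2 - (α * t'.1 ^ 2 + β * t'.1 * t'.2.1 + γ * t'.2.1 ^ 2)) = t.2.2 - t'.2.2 := by
        ring
      rw [e3] at d3
      have hbigZ : 4 * (H : ℤ) * V ≤ (n : ℤ) ^ 3 * k := by exact_mod_cast hVH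
      have hH' : (1 : ℤ) ≤ H := by exact_mod_cast hH
      have hV' : (0 : ℤ) ≤ V := by positivity
      have hsmall : |t.2.2 - t'.2.2| < (n : ℤ) ^ 3 * k := by
        have a1 : |t.2.2 - t'.2.2| ≤ V := by
          rw [abs_le]; constructor <;> linarith [ht.1.2.2.1, ht.1.2.2.2, ht'.1.2.2.1, ht'.1.2.2.2]
        rcases eq_or_lt_of_le hV' with h0 | h0
        · rw [← h0] at a1
          linarith
        · nlinarith
      have hz : t.2.2 - t'.2.2 = 0 := Int.eq_zero_of_abs_lt_dvd d3 hsmall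
      exact Prod.ext h1 (Prod.ext h2 (by linarith))
  exact_mod_cast hle

end Pool.Agent.helper28.LT
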